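import Pool.Agent.Helper1.Stab.PR
import Pool.Agent.Helper82.Stab.GenAux
import Pool.Agent.Helper74.Stab.Rot

/-! Permutations of the complex coordinates of `Cn m`. -/

open Topology Filter Set Matrix

noncomputable section

namespace Pool.Agent.Helper42.Stab

open Pool.Agent.Helper1.Stab
open Pool.Agent.Helper39.Stab (asc J_homeo J_homeo_symm J_homeo_symm' tens_id tens_ltens ltens_comp
  ltens_J tens_homeo ltens_homeo tens_tens' tens_tens)

/-- the coordinates of a point of `Cn n` -/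
def kf : ∀ n : ℕ, Cn n → Fin n → ℂ
  | 0, _ => Fin.elim0
  | n + 1, x => Fin.snoc (α := fun _ => ℂ) (kf n x.1) x.2

/-- the point with given coordinates -/
def ki : ∀ n : ℕ, (Fin n → ℂ) → Cn n
  | 0, _ => PUnit.unit
  | n + 1, v => (ki n (fun i => v i.castSucc), v (Fin.last n))

theorem kf_ki : ∀ (n : ℕ) (v : Fin n → ℂ), kf n (ki n v) = v
  | 0, v => by funext i; exact i.elim0
  | n + 1, v => by
    change Fin.snoc (α := fun _ => ℂ) (kf n (ki n (fun i => v i.castSucc))) (v (Fin.last n)) = v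
    rw [kf_ki n]
    exact Fin.snoc_init_self v

theorem ki_kf : ∀ (n : ℕ) (x : Cn n), ki n (kf n x) = x
  | 0, x => by cases x; rfl
  | n + 1, x => by
    obtain ⟨y, z⟩ := x
    change (ki n (fun i => Fin.snoc (α := fun _ => ℂ) (kf n y) z i.castSucc),
      Fin.snoc (α := fun _ => ℂ) (kf n y) z (Fin.last n)) = (y, z)
    have h1 : (fun i : Fin n => Fin.snoc (α := fun _ => ℂ) (kf n y) z i.castSucc) = kf n y := by
      funext i
      exact Fin.snoc_castSucc (α := fun _ => ℂ) z (kf n y) i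
    have h2 : Fin.snoc (α := fun _ => ℂ) (kf n y) z (Fin.last n) = z :=
      Fin.snoc_last (α := fun _ => ℂ) z (kf n y)
    rw [h1, h2, ki_kf n]

theorem continuous_kf : ∀ n : ℕ, Continuous (kf n)
  | 0 => continuous_const
  | n + 1 => by
    refine continuous_pi fun i => ?_
    refine Fin.lastCases ?_ (fun j => ?_) i
    · have h : (fun x : Cn (n + 1) => kf (n + 1) x (Fin.last n)) = fun x => x.2 := by
        funext x
        exact Fin.snoc_last (α := fun _ => ℂ) x.2 (kf n x.1)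
      rw [h]
      exact continuous_snd
    · have h : (fun x : Cn (n + 1) => kf (n + 1) x j.castSucc) = fun x => kf n x.1 j := by
        funext x
        exact Fin.snoc_castSucc (α := fun _ => ℂ) x.2 (kf n x.1) j
      rw [h]
      exact (continuous_apply j).comp ((continuous_kf n).comp continuous_fst)

theorem continuous_ki : ∀ n : ℕ, Continuous (ki n)
  | 0 => continuous_const
  | n + 1 => by
    refine Continuous.prodMk ((continuous_ki n).comp ?_) (continuous_apply _)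
    exact continuous_pi fun i => continuous_apply _

/-- the coordinates as a homeomorphism -/
def kh (n : ℕ) : Cn n ≃ₜ LC.cpow (Fin n) where
  toFun := kf n
  invFun := ki n
  left_inv := ki_kf n
  right_inv := kf_ki n
  continuous_toFun := continuous_kf n
  continuous_invFun := continuous_ki n

/-- coordinates of the sum -/
theorem kf_add (i : ℕ) : ∀ (j : ℕ) (x : Cn i) (y : Cn j),
    kf (i + j) (CnAdd i j (x, y)) = Fin.append (kf i x) (kf j y)
  | 0, x, y => by
    change kf i x = Fin.append (kf i x) (kf 0 y)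
    funext k
    have h := Fin.append_left (kf i x) (kf 0 y) k
    exact h.symm
  | j + 1, x, y => by
    obtain ⟨y, z⟩ := y
    change Fin.snoc (α := fun _ => ℂ) (kf (i + j) (CnAdd i j (x, y))) z = _
    rw [kf_add i j x y]
    exact (Fin.append_snoc (kf i x) (kf j y) z).symm

/-- the identification of equal powers -/
def cc {i j : ℕ} (h : i = j) : Cn i ≃ₜ Cn j := h ▸ Homeomorph.refl _

theorem kf_cc {i j : ℕ} (h : i = j) (x : Cn i) (k : Fin j) :
    kf j (cc h x) k = kf i x (Fin.cast h.symm k) := by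
  subst h
  rfl

/-- a homeomorphism that permutes the coordinates is homotopic to the identification -/
theorem perm_homotopic {a b : ℕ} (h : a = b) (f : Cn a ≃ₜ Cn b) (σ : Fin b ≃ Fin a)
    (hf : ∀ (x : Cn a) (k : Fin b), kf b (f x) k = kf a x (σ k)) :
    (PMap.ofHomeo f).Homotopic (PMap.ofHomeo (cc h)) := by
  subst h
  have h1 := Pool.Agent.Helper74.Stab.permC_homotopic (σ.symm : Equiv.Perm (Fin a))
  have h2 := PMap.Homotopic.comp (PMap.Homotopic.refl (PMap.ofHomeo (kh a).symm))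
    (PMap.Homotopic.comp h1 (PMap.Homotopic.refl (PMap.ofHomeo (kh a))))
  have e1 : (PMap.ofHomeo (kh a).symm).comp ((PMap.ofHomeo (Homeomorph.piCongrLeft
      (Y := fun _ : Fin a => ℂ) σ.symm : LC.cpow (Fin a) ≃ₜ LC.cpow (Fin a))).comp
      (PMap.ofHomeo (kh a))) = PMap.ofHomeo f := by
    refine PMap.ext fun x => ?_
    change (((kh a).symm (Equiv.piCongrLeft (fun _ : Fin a => ℂ) σ.symm (kf a x)) : Cn a) :
      OnePoint (Cn a)) = ((f x : Cn a) : OnePoint (Cn a))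
    congr 1
    apply (kh a).injective
    rw [Homeomorph.apply_symm_apply]
    funext k
    change _ = kf a (f x) k
    rw [hf]
    have := Equiv.piCongrLeft_apply_apply (fun _ : Fin a => ℂ) σ.symm (kf a x) (σ k)
    rw [Equiv.symm_apply_apply] at this
    exact this
  have e2 : (PMap.ofHomeo (kh a).symm).comp ((PMap.id (LC.cpow (Fin a))).comp
      (PMap.ofHomeo (kh a))) = PMap.ofHomeo (cc rfl) := by
    refine PMap.ext fun x => ?_
    change (((kh a).symm (kh a x) : Cn a) : OnePoint (Cn a)) = ((x : Cn a) : OnePoint (Cn a))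
    rw [Homeomorph.symm_apply_apply]
  rw [e1, e2] at h2
  exact h2

theorem flip_homotopic (i j : ℕ) :
    (PMap.ofHomeo (((CnAdd i j).symm.trans (LC.swap (Cn i) (Cn j))).trans
      (CnAdd j i))).Homotopic (PMap.ofHomeo (cc (Nat.add_comm i j))) := by
  refine perm_homotopic _ _ finAddFlip ?_
  intro x k
  obtain ⟨⟨y, z⟩, rfl⟩ := (CnAdd i j).surjective x
  have h : (((CnAdd i j).symm.trans (LC.swap (Cn i) (Cn j))).trans (CnAdd j i))
      (CnAdd i j (y, z)) = CnAdd j i (z, y) := by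
    change CnAdd j i (LC.swap (Cn i) (Cn j) ((CnAdd i j).symm (CnAdd i j (y, z)))) = _
    rw [Homeomorph.symm_apply_apply]
    rfl
  rw [h, kf_add, kf_add]
  refine Fin.addCases (fun k => ?_) (fun k => ?_) k
  · rw [Fin.append_left, finAddFlip_apply_castAdd, Fin.append_right]
  · rw [Fin.append_right, finAddFlip_apply_natAdd, Fin.append_left]

/-- the exchange of the last two factors -/
def ex (A B C : LC) : (A.prod B).prod C ≃ₜ (A.prod C).prod B :=
  ((asc A B C).trans ((Homeomorph.refl A).prodCongr (LC.swap B C))).trans (asc A C B).symm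

theorem ex_apply (A B C : LC) (a : A) (b : B) (c : C) : ex A B C ((a, b), c) = ((a, c), b) := rfl

/-- the exchange of the last two groups of coordinates -/
def exC (d i j : ℕ) : Cn (d + i + j) ≃ₜ Cn (d + j + i) :=
  (((CnAdd (d + i) j).symm.trans ((CnAdd d i).symm.prodCongr (Homeomorph.refl (Cn j)))).trans
    (ex (Cn d) (Cn i) (Cn j))).trans (((CnAdd d j).prodCongr (Homeomorph.refl (Cn i))).trans
      (CnAdd (d + j) i))

/-- the exchange of the last two summands -/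
def sw3 (α β γ : Type) : (α ⊕ β) ⊕ γ ≃ (α ⊕ γ) ⊕ β where
  toFun := fun x => match x with
    | Sum.inl (Sum.inl a) => Sum.inl (Sum.inl a)
    | Sum.inl (Sum.inr b) => Sum.inr b
    | Sum.inr c => Sum.inl (Sum.inr c)
  invFun := fun x => match x with
    | Sum.inl (Sum.inl a) => Sum.inl (Sum.inl a)
    | Sum.inl (Sum.inr b) => Sum.inr b
    | Sum.inr c => Sum.inl (Sum.inr c)
  left_inv := by rintro ((a | b) | c) <;> rfl
  right_inv := by rintro ((a | b) | c) <;> rfl

/-- the bijection of the coordinates -/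
def exE (d i j : ℕ) : Fin (d + j + i) ≃ Fin (d + i + j) :=
  (((finSumFinEquiv.symm.trans (finSumFinEquiv.symm.sumCongr (Equiv.refl _))).trans
    (sw3 (Fin d) (Fin j) (Fin i))).trans (finSumFinEquiv.sumCongr (Equiv.refl _))).trans finSumFinEquiv

theorem deg_aux (d i j : ℕ) : d + i + j = d + j + i := by omega

theorem exC_homotopic (d i j : ℕ) :
    (PMap.ofHomeo (exC d i j)).Homotopic (PMap.ofHomeo (cc (deg_aux d i j))) := by
  refine perm_homotopic _ _ (exE d i j) ?_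
  intro x k
  obtain ⟨⟨w, z⟩, rfl⟩ := (CnAdd (d + i) j).surjective x
  obtain ⟨⟨u, y⟩, rfl⟩ := (CnAdd d i).surjective w
  have h : exC d i j (CnAdd (d + i) j (CnAdd d i (u, y), z)) =
      CnAdd (d + j) i (CnAdd d j (u, z), y) := by
    change CnAdd (d + j) i (((CnAdd d j).prodCongr (Homeomorph.refl (Cn i)))
      (ex (Cn d) (Cn i) (Cn j) (((CnAdd d i).symm.prodCongr (Homeomorph.refl (Cn j)))
        ((CnAdd (d + i) j).symm (CnAdd (d + i) j (CnAdd d i (u, y), z)))))) = _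
    rw [Homeomorph.symm_apply_apply]
    change CnAdd (d + j) i (((CnAdd d j).prodCongr (Homeomorph.refl (Cn i)))
      (ex (Cn d) (Cn i) (Cn j) ((CnAdd d i).symm (CnAdd d i (u, y)), z))) = _
    rw [Homeomorph.symm_apply_apply]
    rfl
  rw [h, kf_add, kf_add, kf_add, kf_add]
  refine Fin.addCases (fun k => ?_) (fun k => ?_) k
  · refine Fin.addCases (fun k => ?_) (fun k => ?_) k
    · have e : exE d i j (Fin.castAdd i (Fin.castAdd j k)) = Fin.castAdd j (Fin.castAdd i k) := by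
        simp [exE, sw3]
      rw [e, Fin.append_left, Fin.append_left, Fin.append_left, Fin.append_left]
    · have e : exE d i j (Fin.castAdd i (Fin.natAdd d k)) = Fin.natAdd (d + i) k := by
        simp [exE, sw3]
      rw [e, Fin.append_left, Fin.append_right, Fin.append_right]
  · have e : exE d i j (Fin.natAdd (d + j) k) = Fin.castAdd j (Fin.natAdd d k) := by
      simp [exE, sw3]
    rw [e, Fin.append_right, Fin.append_left, Fin.append_right]

/-! ### Exchange of two factors -/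

variable (R : Biv)

theorem exn_first {A P : LC} (x : R.Hom A P) (B B' : LC) :
    R.comp (R.tens (R.tens x B) B') (R.J (PMap.ofHomeo (ex P B B'))) =
      R.comp (R.J (PMap.ofHomeo (ex A B B'))) (R.tens (R.tens x B') B) := by
  rw [tens_tens' R x B B', tens_tens' R x B' B, Helper39.Stab.tens_swap_nf R x B B']
  have e1 : ∀ {X0 X1 X2 X3 X4 X5 X6 : LC} (f : X0 ≃ₜ X1) (g : X1 ≃ₜ X2) (y : R.Hom X2 X3)
      (h : X3 ≃ₜ X4) (k : X4 ≃ₜ X5) (l : X5 ≃ₜ X6),
      R.comp (R.comp (R.J (PMap.ofHomeo f)) (R.comp (R.comp (R.J (PMap.ofHomeo g)) (R.comp y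
        (R.J (PMap.ofHomeo h)))) (R.J (PMap.ofHomeo k)))) (R.J (PMap.ofHomeo l)) =
      R.comp (R.J (PMap.ofHomeo (f.trans g))) (R.comp y
        (R.J (PMap.ofHomeo (h.trans (k.trans l))))) := by
    intro X0 X1 X2 X3 X4 X5 X6 f g y h k l
    rw [← J_homeo, ← J_homeo, ← J_homeo]
    simp only [R.assoc]
  have e2 : ∀ {X0 X1 X2 X3 X4 : LC} (f : X0 ≃ₜ X1) (g : X1 ≃ₜ X2) (y : R.Hom X2 X3)
      (h : X3 ≃ₜ X4),
      R.comp (R.J (PMap.ofHomeo f)) (R.comp (R.J (PMap.ofHomeo g)) (R.comp y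
        (R.J (PMap.ofHomeo h)))) =
      R.comp (R.J (PMap.ofHomeo (f.trans g))) (R.comp y (R.J (PMap.ofHomeo h))) := by
    intro X0 X1 X2 X3 X4 f g y h
    rw [← J_homeo]
    simp only [R.assoc]
  refine (e1 _ _ _ _ _ _).trans (Eq.trans ?_ (e2 _ _ _ _).symm)
  exact Helper39.Stab.comp_homeo_congr R _ (fun _ => rfl) (fun _ => rfl)

theorem exn_second (P : LC) {B Q : LC} (b : R.Hom B Q) (B' : LC) :
    R.comp (R.tens (R.ltens P b) B') (R.J (PMap.ofHomeo (ex P Q B'))) =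
      R.comp (R.J (PMap.ofHomeo (ex P B B'))) (R.ltens (P.prod B') b) := by
  rw [Helper39.Stab.tens_ltens_nf R P b B']
  unfold BivData.ltens
  have e1 : ∀ {X0 X1 X2 X3 X4 : LC} (f : X0 ≃ₜ X1) (y : R.Hom X1 X2)
      (h : X2 ≃ₜ X3) (k : X3 ≃ₜ X4),
      R.comp (R.comp (R.J (PMap.ofHomeo f)) (R.comp y
        (R.J (PMap.ofHomeo h)))) (R.J (PMap.ofHomeo k)) =
      R.comp (R.J (PMap.ofHomeo f)) (R.comp y
        (R.J (PMap.ofHomeo (h.trans k)))) := by
    intro X0 X1 X2 X3 X4 f y h k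
    rw [← J_homeo]
    simp only [R.assoc]
  have e2 : ∀ {X0 X1 X2 X3 X4 : LC} (f : X0 ≃ₜ X1) (g : X1 ≃ₜ X2) (y : R.Hom X2 X3)
      (h : X3 ≃ₜ X4),
      R.comp (R.J (PMap.ofHomeo f)) (R.comp (R.J (PMap.ofHomeo g)) (R.comp y
        (R.J (PMap.ofHomeo h)))) =
      R.comp (R.J (PMap.ofHomeo (f.trans g))) (R.comp y (R.J (PMap.ofHomeo h))) := by
    intro X0 X1 X2 X3 X4 f g y h
    rw [← J_homeo]
    simp only [R.assoc]
  refine (e1 _ _ _ _).trans (Eq.trans ?_ (e2 _ _ _ _).symm)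
  exact Helper39.Stab.comp_homeo_congr R _ (fun _ => rfl) (fun _ => rfl)

theorem exn_third (P Q : LC) {B Q' : LC} (b : R.Hom B Q') :
    R.comp (R.ltens (P.prod Q) b) (R.J (PMap.ofHomeo (ex P Q Q'))) =
      R.comp (R.J (PMap.ofHomeo (ex P Q B))) (R.tens (R.ltens P b) Q) := by
  rw [Helper39.Stab.tens_ltens_nf R P b Q]
  unfold BivData.ltens
  have e1 : ∀ {X0 X1 X2 X3 X4 : LC} (f : X0 ≃ₜ X1) (y : R.Hom X1 X2)
      (h : X2 ≃ₜ X3) (k : X3 ≃ₜ X4),
      R.comp (R.comp (R.J (PMap.ofHomeo f)) (R.comp y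
        (R.J (PMap.ofHomeo h)))) (R.J (PMap.ofHomeo k)) =
      R.comp (R.J (PMap.ofHomeo f)) (R.comp y
        (R.J (PMap.ofHomeo (h.trans k)))) := by
    intro X0 X1 X2 X3 X4 f y h k
    rw [← J_homeo]
    simp only [R.assoc]
  have e2 : ∀ {X0 X1 X2 X3 X4 : LC} (f : X0 ≃ₜ X1) (g : X1 ≃ₜ X2) (y : R.Hom X2 X3)
      (h : X3 ≃ₜ X4),
      R.comp (R.J (PMap.ofHomeo f)) (R.comp (R.J (PMap.ofHomeo g)) (R.comp y
        (R.J (PMap.ofHomeo h)))) =
      R.comp (R.J (PMap.ofHomeo (f.trans g))) (R.comp y (R.J (PMap.ofHomeo h))) := by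
    intro X0 X1 X2 X3 X4 f g y h
    rw [← J_homeo]
    simp only [R.assoc]
  refine (e1 _ _ _ _).trans (Eq.trans ?_ (e2 _ _ _ _).symm)
  exact Helper39.Stab.comp_homeo_congr R _ (fun _ => rfl) (fun _ => rfl)

/-- the double product -/
def dbl {A P B Q B' Q' : LC} (x : R.Hom A P) (b : R.Hom B Q) (b' : R.Hom B' Q') :
    R.Hom ((A.prod B).prod B') ((P.prod Q).prod Q') :=
  R.comp (R.tens (R.comp (R.tens x B) (R.ltens P b)) B') (R.ltens (P.prod Q) b')

theorem dbl_ex {A P B Q B' Q' : LC} (x : R.Hom A P) (b : R.Hom B Q) (b' : R.Hom B' Q') :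
    R.comp (dbl R x b b') (R.J (PMap.ofHomeo (ex P Q Q'))) =
      R.comp (R.J (PMap.ofHomeo (ex A B B'))) (dbl R x b' b) := by
  unfold dbl
  rw [R.tens_comp, R.tens_comp, R.assoc, exn_third, R.assoc, ← R.assoc (R.tens (R.ltens P b) B'),
    exn_second, R.assoc, ← R.assoc (R.tens (R.tens x B) B'), exn_first, R.assoc]
  have h := R.exch (R.ltens P b') b
  change R.comp (R.tens (R.ltens P b') B) (R.ltens (P.prod Q') b) =
    R.comp (R.ltens (P.prod B') b) (R.tens (R.ltens P b') Q) at h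
  rw [← h]
  simp only [R.assoc]

/-- the exchange of the last two summands and extension by zero -/
theorem sum_ex {S T U : Type} [Fintype S] [Fintype T] [Fintype U] (n : ℕ)
    (P : Pr S n) (Q : Pr T 1) (Q' : Pr U 1) :
    Pr.ext (sw3 S T U).toEmbedding (Pr.sum (Pr.sum (P, Q), Q')) =
      (Pr.sum (Pr.sum (P, Q'), Q) : Pr ((S ⊕ U) ⊕ T) (n + 1 + 1)) := by
  have h : ∀ (j : (S ⊕ T) ⊕ U ≃ (S ⊕ U) ⊕ T) (M : Pr ((S ⊕ T) ⊕ U) (n + 1 + 1)) (a b),
      (Pr.ext j.toEmbedding M).1 (j a) (j b) = M.1 a b := by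
    intro j M a b
    exact Helper82.Stab.ext_apply j.toEmbedding M a b
  refine Helper82.Stab.pr_ext_iff fun x y => ?_
  obtain ⟨a, rfl⟩ := (sw3 S T U).surjective x
  obtain ⟨b, rfl⟩ := (sw3 S T U).surjective y
  rw [h]
  rcases a with (a | a) | a <;> rcases b with (b | b) | b <;> rfl

/-! ### The steps of the recursion -/

/-- a step of the recursion for `e_L` -/
def stp {A B C : LC} {S F : Type} [Fintype S] [Fintype F] {n : ℕ} (e : C ≃ₜ A.prod B)
    (x : R.Hom A (LC.Pr S n)) (b : R.Hom B (LC.Pr F 1)) : R.Hom C (LC.Pr (S ⊕ F) (n + 1)) :=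
  R.comp (R.J (PMap.ofHomeo e)) (R.comp (R.tens x B) (R.comp (R.ltens (LC.Pr S n) b)
    (R.J (Helper82.Stab.sumM S F n 1))))

theorem stp_ext {A B C : LC} {S U F : Type} [Fintype S] [Fintype U] [Fintype F] {n : ℕ}
    (e : C ≃ₜ A.prod B) (x : R.Hom A (LC.Pr S n)) (b : R.Hom B (LC.Pr F 1)) (k : S ↪ U) :
    R.comp (stp R e x b) (R.J (Pr.extM (k.sumMap (Function.Embedding.refl F)) (n + 1))) =
      stp R e (R.comp x (R.J (Pr.extM k n))) b := by
  unfold stp
  rw [R.assoc, R.assoc, R.assoc, ← Helper82.Stab.J_sumM_ext_left R k F n 1, R.tens_comp,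
    ← R.assoc (R.ltens (LC.Pr S n) b), ← R.exch]
  simp only [R.assoc]

theorem stp_pre {A A' B C C' : LC} {S F : Type} [Fintype S] [Fintype F] {n : ℕ}
    (e : C ≃ₜ A.prod B) (e' : C' ≃ₜ A'.prod B) (f : R.Hom A A') (g : R.Hom C C')
    (h : R.comp (R.J (PMap.ofHomeo e)) (R.tens f B) = R.comp g (R.J (PMap.ofHomeo e')))
    (x : R.Hom A' (LC.Pr S n)) (b : R.Hom B (LC.Pr F 1)) :
    stp R e (R.comp f x) b = R.comp g (stp R e' x b) := by
  unfold stp
  rw [R.tens_comp, R.assoc (R.tens f B), ← R.assoc (R.J (PMap.ofHomeo e)), h, R.assoc]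

theorem stp_stp {A B C B' C' : LC} {S F F' : Type} [Fintype S] [Fintype F] [Fintype F'] {n : ℕ}
    (e : C ≃ₜ A.prod B) (x : R.Hom A (LC.Pr S n)) (b : R.Hom B (LC.Pr F 1))
    (e' : C' ≃ₜ C.prod B') (b' : R.Hom B' (LC.Pr F' 1)) :
    stp R e' (stp R e x b) b' = R.comp (R.J (PMap.ofHomeo (K := C') (L := (A.prod B).prod B')
      (e'.trans (e.prodCongr (Homeomorph.refl B')))))
        (R.comp (dbl R x b b')
          (R.comp (R.tens (R.J (Helper82.Stab.sumM S F n 1)) (LC.Pr F' 1))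
            (R.J (Helper82.Stab.sumM (S ⊕ F) F' (n + 1) 1)))) := by
  have e1 := Helper39.Stab.tens_homeo R e B'
  have e2 := Helper39.Stab.J_homeo R (K := C') (L := C.prod B') (M := (A.prod B).prod B') e'
      (e.prodCongr (Homeomorph.refl B'))
  have e3 := R.exch (R.J (Helper82.Stab.sumM S F n 1)) b'
  change R.comp (R.tens (R.J (Helper82.Stab.sumM S F n 1)) B')
      (R.ltens (LC.Pr (S ⊕ F) (n + 1)) b') =
      R.comp (R.ltens ((LC.Pr S n).prod (LC.Pr F 1)) b')
        (R.tens (R.J (Helper82.Stab.sumM S F n 1)) (LC.Pr F' 1)) at e3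
  rw [← e2, ← e1]
  unfold dbl stp
  rw [R.assoc (R.J _) (R.tens _ _), R.assoc (R.tens _ _) (R.ltens _ _),
      ← R.assoc (R.ltens _ _) (R.tens _ _), ← e3]
  simp only [R.tens_comp, R.assoc]

theorem sumM_ex {S T U : Type} [Fintype S] [Fintype T] [Fintype U] (n : ℕ) :
    R.comp (R.comp (R.tens (R.J (Helper82.Stab.sumM S T n 1)) (LC.Pr U 1))
            (R.J (Helper82.Stab.sumM (S ⊕ T) U (n + 1) 1)))
      (R.J (Pr.extM (sw3 S T U).toEmbedding (n + 1 + 1))) =
    R.comp (R.J (PMap.ofHomeo (ex (LC.Pr S n) (LC.Pr T 1) (LC.Pr U 1))))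
      (R.comp (R.tens (R.J (Helper82.Stab.sumM S U n 1)) (LC.Pr T 1))
            (R.J (Helper82.Stab.sumM (S ⊕ U) T (n + 1) 1))) := by
  rw [R.tens_J, R.tens_J, ← R.J_comp, ← R.J_comp, ← R.J_comp, ← R.J_comp]
  congr 1
  refine PMap.ext ?_
  rintro ⟨⟨P, Q⟩, Q'⟩
  exact congrArg (fun M : LC.Pr ((S ⊕ U) ⊕ T) (n + 1 + 1) =>
    (M : OnePoint (LC.Pr ((S ⊕ U) ⊕ T) (n + 1 + 1)))) (sum_ex n P Q Q')

theorem stp_swap {A B C B' C' D D' : LC} {S F F' : Type} [Fintype S] [Fintype F] [Fintype F']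
    {n : ℕ} (e : C ≃ₜ A.prod B) (x : R.Hom A (LC.Pr S n)) (b : R.Hom B (LC.Pr F 1))
    (e' : C' ≃ₜ C.prod B') (b' : R.Hom B' (LC.Pr F' 1)) (f : D ≃ₜ A.prod B')
    (f' : D' ≃ₜ D.prod B) (g : C' ≃ₜ D')
    (h : ∀ z : C', f.prodCongr (Homeomorph.refl B) (f' (g z)) =
      ex A B B' ((e.prodCongr (Homeomorph.refl B')) (e' z))) :
    R.comp (stp R e' (stp R e x b) b') (R.J (Pr.extM (sw3 S F F').toEmbedding (n + 1 + 1))) =
      R.comp (R.J (PMap.ofHomeo g)) (stp R f' (stp R f x b') b) := by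
  rw [stp_stp, stp_stp, R.assoc, R.assoc, sumM_ex, ← R.assoc (dbl R x b b'), dbl_ex, R.assoc,
    ← R.assoc, ← R.assoc (R.J (PMap.ofHomeo g)), J_homeo, J_homeo]
  congr 3
  exact Homeomorph.ext fun z => (h z).symm

theorem exC_spec (d i j : ℕ) (z : Cn (d + i + j)) :
    (CnAdd d j).symm.prodCongr (Homeomorph.refl (Cn i)) ((CnAdd (d + j) i).symm (exC d i j z)) =
      ex (Cn d) (Cn i) (Cn j) (((CnAdd d i).symm.prodCongr (Homeomorph.refl (Cn j)))
        ((CnAdd (d + i) j).symm z)) := by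
  change (CnAdd d j).symm.prodCongr (Homeomorph.refl (Cn i)) ((CnAdd (d + j) i).symm
    (CnAdd (d + j) i (((CnAdd d j).prodCongr (Homeomorph.refl (Cn i)))
      (ex (Cn d) (Cn i) (Cn j) (((CnAdd d i).symm.prodCongr (Homeomorph.refl (Cn j)))
        ((CnAdd (d + i) j).symm z)))))) = _
  rw [Homeomorph.symm_apply_apply]
  generalize ex (Cn d) (Cn i) (Cn j) (((CnAdd d i).symm.prodCongr (Homeomorph.refl (Cn j)))
        ((CnAdd (d + i) j).symm z)) = w
  obtain ⟨w1, w2⟩ := w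
  change ((CnAdd d j).symm (CnAdd d j w1), w2) = _
  rw [Homeomorph.symm_apply_apply]

end Pool.Agent.Helper42.Stab
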